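import Pool.Agent.TH733.RT.Use
import Pool.Agent.H943R6.MG.Final

/-!
# Common translates of independent random oracles: Gap-MCSP

`xor2 A B` is the symmetric difference of the oracles `A` and `B`, the translate of `A` by `B`. The
gap problem relative to `A`: tables `T` of circuit size (with gates for the oracle `A`) at most
`2 sqrt |T|` against tables of circuit size greater than `|T| / (8 log |T|)`.

* For every sequence `B 0, B 1, ...` of oracles there is one oracle `A` such that, relative to every
  translate of `A` by a `B i`, `P = PSPACE` and the gap problem has a solution in `P`.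
* Let the `B i` be independent random oracles. Almost surely, for every set `I` of numbers there is
  one oracle `A` such that, relative to the translate by `B i`: for all `i` in `I`, `P = PSPACE` and
  the gap problem has a solution in `P`; for all `i` outside `I`, the gap problem has no solution in
  `coNP` with polynomial advice (so it is not in statistical zero knowledge, a part of
  `NP/poly ∩ coNP/poly`).

Proof. `A` codes the computations relative to its translates by the `B i`, `i ∈ I`, masked by
`B i`; on the strings of length at most `n` it depends on `I` only below `log n`; for a fixed `I` the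
translate by an independent random oracle is random; and the oracles with an easy gap problem form a
null set for slowly growing gauges (starting file `GaugeThreshold`).
-/

set_option autoImplicit false

namespace Pool.Agent.Results.MP_2ca196_lc.IndependentTranslates

open Pool.Agent.NPC Pool.Agent.H620R2.Gauge Pool.Agent.H943R6.MC
open Pool.Agent.TH733.RT MeasureTheory

/-- The gap problem relative to `A` has a solution in the class `C`. -/
def GapIn (A : Oracle) (C : Set (List Bool) → Prop) : Prop := ∃ L, SolvesGap A L ∧ C L

/-- `L` is in `coNP` with polynomial advice, relative to `A`. -/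
def CoNPPoly (A : Oracle) (L : Set (List Bool)) : Prop := WithAdvice (IsNP A) Lᶜ

theorem nullS : Null slowG {A : Oracle | GapIn A (CoNPPoly A)} :=
  nullG (fun _ hε => (slow_p hε).frequently) _ fun _ hA => hA

theorem gap_of {A : Oracle} (h : ∀ L, IsPSPACE A L → Reduces L {x | A x = true}) :
    (∀ L, IsPSPACE A L → IsP A L) ∧ GapIn A (IsP A) :=
  ⟨fun L hL => isP_of_reduces (h L hL), LG A, solvesGap_LG A,
    isP_of_reduces (h _ (isNP_LG A).isPSPACE)⟩

theorem weaken {A : Oracle} (h : GapIn A (IsP A)) : GapIn A (CoNPPoly A) := by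
  obtain ⟨L, hL, h⟩ := h
  exact ⟨L, hL, (IsP.compl h).isNP.withAdvice⟩

theorem result :
    (∀ B : ℕ → Oracle, ∃ A : Oracle, ∀ i,
      (∀ L, IsPSPACE (xor2 A (B i)) L → IsP (xor2 A (B i)) L) ∧
      GapIn (xor2 A (B i)) (IsP (xor2 A (B i)))) ∧
    ∀ᵐ B ∂randomSeq, ∀ I : Set ℕ, ∃ A : Oracle, ∀ i,
      (i ∈ I ↔ GapIn (xor2 A (B i)) (IsP (xor2 A (B i)))) ∧
      (i ∈ I ↔ GapIn (xor2 A (B i)) (CoNPPoly (xor2 A (B i)))) ∧
      (i ∈ I ↔ ∀ L, IsPSPACE (xor2 A (B i)) L → IsP (xor2 A (B i)) L) := by
  obtain ⟨h1, h2⟩ := use_p nullS
  refine ⟨fun B => ?_, ?_⟩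
  · obtain ⟨A, hA⟩ := h1 B
    exact ⟨A, fun i => gap_of (hA i)⟩
  · filter_upwards [h2] with B hB I
    obtain ⟨A, h3, h4⟩ := hB I
    refine ⟨A, fun i => ?_⟩
    by_cases hi : i ∈ I
    · obtain ⟨h5, h6⟩ := gap_of (h3 i hi)
      exact ⟨iff_of_true hi h6, iff_of_true hi (weaken h6), iff_of_true hi h5⟩
    · have h5 : ¬ GapIn (xor2 A (B i)) (CoNPPoly (xor2 A (B i))) := h4 i hi
      exact ⟨iff_of_false hi fun h => h5 (weaken h), iff_of_false hi h5,
        iff_of_false hi fun h => h5 (weaken ⟨LG _, solvesGap_LG _, h _ (isNP_LG _).isPSPACE⟩)⟩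

end Pool.Agent.Results.MP_2ca196_lc.IndependentTranslates
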